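import Pool.Agent.Helper73.FX.Lattice3
import Pool.Agent.Helper9.FX.Cover2
import Pool.Agent.Helper98.HX.CoverThick

/-! Project FX, colouring version with helper9's covering form of tameness. -/

set_option autoImplicit false

universe u

namespace Pool.Agent.Helper73.FX

open Pool.Agent
open Pool.Agent.Helper31.FX (HasBoundedRay CoverTame IsCover coverTame_dual)

/-- Let `f` be a monotone self-map of a poset with bounded chains, `A` a set of points `x` such that
`s ∨ f x` exists, and `be w ≤ s, f w` monotone on the complement of `A`, such that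
`be w ∨ f x` exists for `x < w`, `x ∈ A`, `w ∉ A`, `be w < s`. If the set of the values `be w < s`
has a covering without ray of bounded diameter then `f` has a fixed point. -/
theorem main_cover3 (P : Type u) [PartialOrder P]
    (hfin : ∃ n : ℕ, ∀ c : Finset P, IsChain (· ≤ ·) (c : Set P) → c.card ≤ n) (s : P)
    (f : P → P) (hf : Monotone f)
    (A : Set P) (hA : ∀ x ∈ A, ∃ z : P, IsLUB ({s, f x} : Set P) z)
    (be : P → P) (hbe : ∀ w, w ∉ A → be w ≤ s ∧ be w ≤ f w)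
    (hbem : ∀ v w, v ∉ A → w ∉ A → v ≤ w → be v ≤ be w)
    (hj : ∀ x w : P, x < w → x ∈ A → w ∉ A → be w < s → ∃ z : P, IsLUB ({be w, f x} : Set P) z)
    (ht : CoverTame {e | ∃ w, w ∉ A ∧ be w < s ∧ be w = e}) : ∃ x : P, f x = x := by
  obtain ⟨X, hX, q, hq, hr⟩ := ht
  by_contra hno
  obtain ⟨r, lam, h1, h2, h3⟩ := exists_label3 P hfin s f hf hno A hA be
    (fun w hw => (hbe w hw).1) (fun w hw => (hbe w hw).2) hbem hj _ rfl
  refine Helper9.FX.no_labelling_cover r s _ ?_ lam h1 h2 h3 q hq hr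
  rintro d ⟨w, _, h2, h3⟩
  exact h3 ▸ h2

/-- The order dual of `main_cover3`. -/
theorem main_cover3_dual (P : Type u) [PartialOrder P]
    (hfin : ∃ n : ℕ, ∀ c : Finset P, IsChain (· ≤ ·) (c : Set P) → c.card ≤ n) (s : P)
    (f : P → P) (hf : Monotone f)
    (A : Set P) (hA : ∀ x ∈ A, ∃ z : P, IsGLB ({s, f x} : Set P) z)
    (be : P → P) (hbe : ∀ w, w ∉ A → s ≤ be w ∧ f w ≤ be w)
    (hbem : ∀ v w, v ∉ A → w ∉ A → v ≤ w → be v ≤ be w)
    (hj : ∀ x w : P, w < x → x ∈ A → w ∉ A → s < be w → ∃ z : P, IsGLB ({be w, f x} : Set P) z)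
    (ht : CoverTame {e | ∃ w, w ∉ A ∧ s < be w ∧ be w = e}) : ∃ x : P, f x = x := by
  obtain ⟨n, hn⟩ := hfin
  exact main_cover3 Pᵒᵈ ⟨n, fun c hc => hn c (by
    intro a ha b hb hab
    exact (hc ha hb hab).symm)⟩ (OrderDual.toDual s)
    (fun x => OrderDual.toDual (f (OrderDual.ofDual x))) (fun a b hab => hf hab)
    (OrderDual.ofDual ⁻¹' A) (fun x hx => hA (OrderDual.ofDual x) hx)
    (fun x => OrderDual.toDual (be (OrderDual.ofDual x)))
    (fun w hw => hbe (OrderDual.ofDual w) hw)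
    (fun v w h1 h2 h3 => hbem (OrderDual.ofDual w) (OrderDual.ofDual v) h2 h1 h3)
    (fun x w h1 h2 h3 h4 => hj (OrderDual.ofDual x) (OrderDual.ofDual w) h1 h2 h3 h4)
    (coverTame_dual _ ht)

/-- Subsets of a tame set are tame (covering sense). -/
theorem coverTame_mono {P : Type u} [PartialOrder P] {E F : Set P} (hEF : E ⊆ F)
    (h : CoverTame F) : CoverTame E := by
  obtain ⟨X, hX, q, hq, hr⟩ := h
  refine ⟨{x : X // q x ∈ E}, inferInstance, fun x => q x.1, ?_, fun hb => hr ?_⟩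
  · refine ⟨fun x => x.2, ?_, ?_, ?_, ?_⟩
    · intro e he
      obtain ⟨x, hx⟩ := hq.onto e (hEF he)
      exact ⟨⟨x, hx ▸ he⟩, hx⟩
    · intro x y hxy
      exact hq.mono _ _ hxy
    · intro x e he hxe
      obtain ⟨y, ⟨hy1, hy2⟩, hy3⟩ := hq.up x.1 e (hEF he) hxe
      refine ⟨⟨y, hy2 ▸ he⟩, ⟨hy1, hy2⟩, ?_⟩
      intro z hz
      exact Subtype.ext (hy3 z.1 ⟨hz.1, hz.2⟩)
    · intro x e he hxe
      obtain ⟨y, ⟨hy1, hy2⟩, hy3⟩ := hq.down x.1 e (hEF he) hxe
      refine ⟨⟨y, hy2 ▸ he⟩, ⟨hy1, hy2⟩, ?_⟩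
      intro z hz
      exact Subtype.ext (hy3 z.1 ⟨hz.1, hz.2⟩)
  · obtain ⟨v, hv, -, hvc, c, n, hp⟩ := hb
    refine ⟨fun k => (v k).1, fun i j hij => hv (Subtype.ext hij), fun _ => Set.mem_univ _, hvc,
      c.1, n, fun i => ?_⟩
    obtain ⟨p, h0, hn, -, hc⟩ := hp i
    exact ⟨fun j => (p j).1, congrArg _ h0, congrArg _ hn, fun _ _ => Set.mem_univ _, hc⟩

/-- Special elements: exactly the conditions (i) and (ii) of the problem; only the set of the values
`s ∧ f x` below `s` has to be tame. -/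
theorem special_cover3 (P : Type u) [PartialOrder P]
    (hfin : ∃ n : ℕ, ∀ c : Finset P, IsChain (· ≤ ·) (c : Set P) → c.card ≤ n) (s : P)
    (h1 : ∀ x : P, (∃ z : P, IsLUB ({s, x} : Set P) z) ∨ (∃ z : P, IsGLB ({s, x} : Set P) z))
    (h2 : ∀ x y : P, x < y → (¬ ∃ z : P, IsGLB ({s, x} : Set P) z) →
      ∀ m : P, IsGLB ({s, y} : Set P) m → ∃ z : P, IsLUB ({m, x} : Set P) z)
    (f : P → P) (hf : Monotone f)
    (ht : CoverTame {m : P | m < s ∧ ∃ w, IsGLB ({s, f w} : Set P) m}) :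
    ∃ x : P, f x = x := by
  classical
  let me : P → P := fun y => if h : ∃ z : P, IsGLB ({s, y} : Set P) z then h.choose else s
  have hme : ∀ y, (∃ z : P, IsGLB ({s, y} : Set P) z) → IsGLB ({s, y} : Set P) (me y) := by
    intro y h
    simp only [me, dif_pos h]
    exact h.choose_spec
  have hW : ∀ w, w ∉ {x | ¬ ∃ z : P, IsGLB ({s, f x} : Set P) z} →
      ∃ z : P, IsGLB ({s, f w} : Set P) z := by
    intro w hw
    simpa using hw
  refine main_cover3 P hfin s f hf {x | ¬ ∃ z : P, IsGLB ({s, f x} : Set P) z} ?_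
    (fun w => me (f w)) ?_ ?_ ?_ ?_
  · intro x hx
    exact (h1 (f x)).resolve_right hx
  · intro w hw
    have h := hme _ (hW w hw)
    exact ⟨h.1 (by simp), h.1 (by simp)⟩
  · intro v w hv hw hvw
    have h3 := hme _ (hW v hv)
    have h4 := hme _ (hW w hw)
    refine h4.2 ?_
    rintro z (rfl | rfl)
    · exact h3.1 (by simp)
    · exact (h3.1 (by simp)).trans (hf hvw)
  · intro x w hxw hx hw _
    refine h2 (f x) (f w) (lt_of_le_of_ne (hf hxw.le) ?_) hx _ (hme _ (hW w hw))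
    intro e
    apply hx
    rw [e]
    exact hW w hw
  · refine coverTame_mono ?_ ht
    rintro e ⟨w, hw, hs, rfl⟩
    exact ⟨hs, w, hme _ (hW w hw)⟩

/-- The order dual of `special_cover3`. -/
theorem special_cover3_dual (P : Type u) [PartialOrder P]
    (hfin : ∃ n : ℕ, ∀ c : Finset P, IsChain (· ≤ ·) (c : Set P) → c.card ≤ n) (s : P)
    (h1 : ∀ x : P, (∃ z : P, IsLUB ({s, x} : Set P) z) ∨ (∃ z : P, IsGLB ({s, x} : Set P) z))
    (h2 : ∀ x y : P, y < x → (¬ ∃ z : P, IsLUB ({s, x} : Set P) z) →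
      ∀ m : P, IsLUB ({s, y} : Set P) m → ∃ z : P, IsGLB ({m, x} : Set P) z)
    (f : P → P) (hf : Monotone f)
    (ht : CoverTame {m : P | s < m ∧ ∃ w, IsLUB ({s, f w} : Set P) m}) :
    ∃ x : P, f x = x := by
  obtain ⟨n, hn⟩ := hfin
  exact special_cover3 Pᵒᵈ ⟨n, fun c hc => hn c (by
    intro a ha b hb hab
    exact (hc ha hb hab).symm)⟩ (OrderDual.toDual s)
    (fun x => (h1 (OrderDual.ofDual x)).symm)
    (fun x y hxy hx m hm => h2 (OrderDual.ofDual x) (OrderDual.ofDual y) hxy hx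
      (OrderDual.ofDual m) hm)
    (fun x => OrderDual.toDual (f (OrderDual.ofDual x))) (fun a b hab => hf hab)
    (coverTame_dual _ ht)

end Pool.Agent.Helper73.FX
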