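import Pool.Agent.Helper73.FX.Main3

/-! Project FX, colouring version: lattices with a finite set of elements below `s` which is met by
all values joining with `s` to `⊤`. -/

set_option autoImplicit false

universe u

namespace Pool.Agent.Helper73.FX

open Pool.Agent
open Pool.Agent.Helper31.FX (HasBoundedRay)

section

variable {L : Type u} [Lattice L] [BoundedOrder L] {s : L} {Q : Set L}

lemma memQ (hs1 : s ≠ ⊤) (hQ : ∀ x : L, x ≠ ⊥ → x ≠ ⊤ → ¬ IsCompl x s → x ∈ Q) (d : L)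
    (hd : d ≠ ⊥) (hds : d ≤ s) (y : L) (hy : d ≤ y) (hy1 : y ≠ ⊤) : y ∈ Q := by
  have _ := hs1
  refine hQ y ?_ hy1 ?_
  · intro e
    exact hd (le_bot_iff.1 (e ▸ hy))
  · intro h
    have h1 : d ≤ y ⊓ s := le_inf hy hds
    rw [h.inf_eq_bot] at h1
    exact hd (le_bot_iff.1 h1)

lemma lubQ (hs1 : s ≠ ⊤) (hQ : ∀ x : L, x ≠ ⊥ → x ≠ ⊤ → ¬ IsCompl x s → x ∈ Q)
    (d y : {x : L // x ∈ Q}) (hd : d.1 ≠ ⊥) (hds : d.1 ≤ s) (h : s ⊔ y.1 ≠ ⊤) :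
    ∃ z : {x : L // x ∈ Q}, IsLUB ({d, y} : Set {x : L // x ∈ Q}) z := by
  have h1 : d.1 ⊔ y.1 ≠ ⊤ := by
    intro e
    have h2 : d.1 ⊔ y.1 ≤ s ⊔ y.1 := sup_le_sup_right hds y.1
    rw [e] at h2
    exact h (top_le_iff.1 h2)
  refine ⟨⟨d.1 ⊔ y.1, memQ hs1 hQ d.1 hd hds _ le_sup_left h1⟩, ?_, ?_⟩
  · intro z hz
    rcases hz with h2 | h2
    · rw [h2]
      exact (le_sup_left : d.1 ≤ d.1 ⊔ y.1)
    · rw [Set.mem_singleton_iff.1 h2]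
      exact (le_sup_right : y.1 ≤ d.1 ⊔ y.1)
  · intro z hz
    exact sup_le (hz (Or.inl rfl)) (hz (Or.inr rfl))

end

theorem main3_lattice (L : Type u) [Lattice L] [BoundedOrder L]
    (hfin : ∃ n : ℕ, ∀ c : Finset L, IsChain (· ≤ ·) (c : Set L) → c.card ≤ n) (s : L)
    (hs0 : s ≠ ⊥) (hs1 : s ≠ ⊤) (Q : Set L) (hQ0 : ∀ x ∈ Q, x ≠ ⊥ ∧ x ≠ ⊤)
    (hQ : ∀ x : L, x ≠ ⊥ → x ≠ ⊤ → ¬ IsCompl x s → x ∈ Q)
    (F : Finset L) (hF : ∀ e ∈ F, e ≠ ⊥ ∧ e ≤ s)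
    (f : {x : L // x ∈ Q} → {x : L // x ∈ Q}) (hf : Monotone f)
    (hit : ∀ x, s ⊔ (f x).1 = ⊤ → ∃ e ∈ F, e ≤ (f x).1) : ∃ x, f x = x := by
  classical
  have _ := hQ0
  have hsQ : s ∈ Q := memQ hs1 hQ s hs0 le_rfl s le_rfl hs1
  -- the join of the elements of `F` below `y`
  let j : L → L := fun y => (F.filter (· ≤ y)).sup id
  have hjs : ∀ y, j y ≤ s := fun y =>
    Finset.sup_le (fun a ha => (hF a (Finset.mem_filter.1 ha).1).2)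
  have hjy : ∀ y, j y ≤ y := fun y => Finset.sup_le (fun a ha => (Finset.mem_filter.1 ha).2)
  have hjm : ∀ y y', y ≤ y' → j y ≤ j y' := by
    intro y y' h
    refine Finset.sup_mono (fun a ha => ?_)
    rw [Finset.mem_filter] at ha ⊢
    exact ⟨ha.1, ha.2.trans h⟩
  have hjn : ∀ y, (∃ e ∈ F, e ≤ y) → j y ≠ ⊥ := by
    rintro y ⟨e, he, hey⟩ h
    have h1 : e ≤ j y := Finset.le_sup (f := id) (Finset.mem_filter.2 ⟨he, hey⟩)
    rw [h] at h1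
    exact (hF e he).1 (le_bot_iff.1 h1)
  let be : {x : L // x ∈ Q} → {x : L // x ∈ Q} := fun w =>
    if h : j (f w).1 ∈ Q then ⟨j (f w).1, h⟩ else ⟨s, hsQ⟩
  have hbe : ∀ w : {x : L // x ∈ Q}, w ∉ {x : {x : L // x ∈ Q} | s ⊔ (f x).1 ≠ ⊤} →
      (be w).1 = j (f w).1 ∧ j (f w).1 ≠ ⊥ := by
    intro w hw
    have hw' : s ⊔ (f w).1 = ⊤ := by simpa using hw
    have h1 : j (f w).1 ≠ ⊥ := hjn _ (hit w hw')
    have h2 : j (f w).1 ∈ Q := memQ hs1 hQ _ h1 (hjs _) _ le_rfl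
      (fun e => hs1 (top_le_iff.1 (e ▸ hjs (f w).1)))
    refine ⟨?_, h1⟩
    simp only [be, dif_pos h2]
  refine main3 {x : L // x ∈ Q} ?_ ⟨s, hsQ⟩ f hf {x | s ⊔ (f x).1 ≠ ⊤} ?_ be ?_ ?_ ?_ ?_
  · obtain ⟨n, hn⟩ := hfin
    refine ⟨n, fun c hc => ?_⟩
    have h1 := hn (c.map ⟨Subtype.val, Subtype.val_injective⟩) (by
      intro x hx y hy hxy
      rw [Finset.coe_map] at hx hy
      obtain ⟨x', hx', rfl⟩ := hx
      obtain ⟨y', hy', rfl⟩ := hy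
      exact hc hx' hy' (fun e => hxy (by rw [e])))
    rw [Finset.card_map] at h1
    exact h1
  · intro x hx
    exact lubQ hs1 hQ ⟨s, hsQ⟩ (f x) hs0 le_rfl hx
  · intro w hw
    constructor
    · show (be w).1 ≤ s
      rw [(hbe w hw).1]
      exact hjs _
    · show (be w).1 ≤ (f w).1
      rw [(hbe w hw).1]
      exact hjy _
  · intro v w hv hw hvw
    show (be v).1 ≤ (be w).1
    rw [(hbe v hv).1, (hbe w hw).1]
    exact hjm _ _ (hf hvw)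
  · intro x w _ hx hw _
    refine lubQ hs1 hQ (be w) (f x) ?_ ?_ hx
    · rw [(hbe w hw).1]
      exact (hbe w hw).2
    · rw [(hbe w hw).1]
      exact hjs _
  · apply not_bray_of_finite
    have h1 : ({e : {x : L // x ∈ Q} | ∃ w, w ∉ {x : {x : L // x ∈ Q} | s ⊔ (f x).1 ≠ ⊤} ∧
        be w < ⟨s, hsQ⟩ ∧ be w = e}).Finite := by
      refine Set.Finite.of_finite_image (f := Subtype.val) ?_ Subtype.val_injective.injOn
      refine ((F.powerset.image (fun G => G.sup id)).finite_toSet).subset ?_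
      rintro _ ⟨e, ⟨w, hw, _, rfl⟩, rfl⟩
      rw [Finset.mem_coe, Finset.mem_image]
      exact ⟨F.filter (· ≤ (f w).1), Finset.mem_powerset.2 (Finset.filter_subset _ _),
        (hbe w hw).1.symm⟩
    exact h1

/-- The order dual of `main3_lattice`. -/
theorem main3_lattice_dual (L : Type u) [Lattice L] [BoundedOrder L]
    (hfin : ∃ n : ℕ, ∀ c : Finset L, IsChain (· ≤ ·) (c : Set L) → c.card ≤ n) (s : L)
    (hs0 : s ≠ ⊥) (hs1 : s ≠ ⊤) (Q : Set L) (hQ0 : ∀ x ∈ Q, x ≠ ⊥ ∧ x ≠ ⊤)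
    (hQ : ∀ x : L, x ≠ ⊥ → x ≠ ⊤ → ¬ IsCompl x s → x ∈ Q)
    (F : Finset L) (hF : ∀ e ∈ F, e ≠ ⊤ ∧ s ≤ e)
    (f : {x : L // x ∈ Q} → {x : L // x ∈ Q}) (hf : Monotone f)
    (hit : ∀ x, s ⊓ (f x).1 = ⊥ → ∃ e ∈ F, (f x).1 ≤ e) : ∃ x, f x = x := by
  classical
  obtain ⟨n, hn⟩ := hfin
  let tow : {x : L // x ∈ Q} → {x : Lᵒᵈ // x ∈ (OrderDual.ofDual ⁻¹' Q : Set Lᵒᵈ)} := fun x =>
    ⟨OrderDual.toDual x.1, x.2⟩
  let fr : {x : Lᵒᵈ // x ∈ (OrderDual.ofDual ⁻¹' Q : Set Lᵒᵈ)} → {x : L // x ∈ Q} := fun x =>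
    ⟨OrderDual.ofDual x.1, x.2⟩
  obtain ⟨x, hx⟩ := main3_lattice Lᵒᵈ ⟨n, fun c hc => hn c (by
      intro a ha b hb hab
      exact (hc ha hb hab).symm)⟩ (OrderDual.toDual s) hs1 hs0
    (OrderDual.ofDual ⁻¹' Q : Set Lᵒᵈ) (fun x hx => (hQ0 (OrderDual.ofDual x) hx).symm)
    (fun x h0 h1 hc => hQ (OrderDual.ofDual x) h1 h0 (fun h => hc h.dual))
    F (fun e he => hF e he) (fun x => tow (f (fr x)))
    (fun a b hab => hf (show fr b ≤ fr a from hab))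
    (fun x hx => hit (fr x) hx)
  refine ⟨fr x, ?_⟩
  have h1 := congrArg fr hx
  exact h1

end Pool.Agent.Helper73.FX
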