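import Pool.Agent.Helper73.FX.Tame3
import Pool.Agent.Helper73.FX.Lattice3

/-! Project FX, colouring version: special elements with a tame lower part, lattices. -/

set_option autoImplicit false

universe u

namespace Pool.Agent.Helper73.FX

open Pool.Agent
open Pool.Agent.Helper31.FX (HasBoundedRay)

/-- Special elements: exactly the conditions (i) and (ii) of the problem. -/
theorem special3 (P : Type u) [PartialOrder P]
    (hfin : ∃ n : ℕ, ∀ c : Finset P, IsChain (· ≤ ·) (c : Set P) → c.card ≤ n) (s : P)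
    (h1 : ∀ x : P, (∃ z : P, IsLUB ({s, x} : Set P) z) ∨ (∃ z : P, IsGLB ({s, x} : Set P) z))
    (h2 : ∀ x y : P, x < y → (¬ ∃ z : P, IsGLB ({s, x} : Set P) z) →
      ∀ m : P, IsGLB ({s, y} : Set P) m → ∃ z : P, IsLUB ({m, x} : Set P) z)
    (ht : Tame {d : P | d < s})
    (f : P → P) (hf : Monotone f) : ∃ x : P, f x = x := by
  classical
  let me : P → P := fun y => if h : ∃ z : P, IsGLB ({s, y} : Set P) z then h.choose else s
  have hme : ∀ y, (∃ z : P, IsGLB ({s, y} : Set P) z) → IsGLB ({s, y} : Set P) (me y) := by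
    intro y h
    simp only [me, dif_pos h]
    exact h.choose_spec
  have hW : ∀ w, w ∉ {x | ¬ ∃ z : P, IsGLB ({s, f x} : Set P) z} →
      ∃ z : P, IsGLB ({s, f w} : Set P) z := by
    intro w hw
    simpa using hw
  refine main_tame3 P hfin s f hf {x | ¬ ∃ z : P, IsGLB ({s, f x} : Set P) z} ?_
    (fun w => me (f w)) ?_ ?_ ?_ ?_
  · intro x hx
    exact (h1 (f x)).resolve_right hx
  · intro w hw
    have h := hme _ (hW w hw)
    exact ⟨h.1 (by simp), h.1 (by simp)⟩
  · intro v w hv hw hvw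
    have h3 := hme _ (hW v hv)
    have h4 := hme _ (hW w hw)
    refine h4.2 ?_
    rintro z (rfl | rfl)
    · exact h3.1 (by simp)
    · exact (h3.1 (by simp)).trans (hf hvw)
  · intro x w hxw hx hw _
    refine h2 (f x) (f w) (lt_of_le_of_ne (hf hxw.le) ?_) hx _ (hme _ (hW w hw))
    intro e
    apply hx
    rw [e]
    exact hW w hw
  · refine tame_mono ?_ ht
    rintro e ⟨w, _, hs, rfl⟩
    exact hs

/-- The order dual of `special3`. -/
theorem special3_dual (P : Type u) [PartialOrder P]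
    (hfin : ∃ n : ℕ, ∀ c : Finset P, IsChain (· ≤ ·) (c : Set P) → c.card ≤ n) (s : P)
    (h1 : ∀ x : P, (∃ z : P, IsLUB ({s, x} : Set P) z) ∨ (∃ z : P, IsGLB ({s, x} : Set P) z))
    (h2 : ∀ x y : P, y < x → (¬ ∃ z : P, IsLUB ({s, x} : Set P) z) →
      ∀ m : P, IsLUB ({s, y} : Set P) m → ∃ z : P, IsGLB ({m, x} : Set P) z)
    (ht : Tame {d : P | s < d})
    (f : P → P) (hf : Monotone f) : ∃ x : P, f x = x := by
  obtain ⟨n, hn⟩ := hfin
  exact special3 Pᵒᵈ ⟨n, fun c hc => hn c (by
    intro a ha b hb hab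
    exact (hc ha hb hab).symm)⟩ (OrderDual.toDual s)
    (fun x => (h1 (OrderDual.ofDual x)).symm)
    (fun x y hxy hx m hm => h2 (OrderDual.ofDual x) (OrderDual.ofDual y) hxy hx
      (OrderDual.ofDual m) hm) (tame_dual _ ht)
    (fun x => OrderDual.toDual (f (OrderDual.ofDual x))) (fun a b hab => hf hab)

end Pool.Agent.Helper73.FX
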