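import Pool.Agent.Helper44.GB.Graph

/-!
Labelled monotone sequences over an arbitrary poset of letters, labels in a poset without chains of
three elements. Adapted from helper44's `GB/Graph.lean`.
-/

set_option autoImplicit false

universe u v

namespace Pool.Agent.Helper73.FX.G3

set_option linter.unusedSectionVars false

open Pool.Agent.Helper44.GB (Cp Red ext Nb ext_self head_ext length_ext nb_ext red_cp red_ext
  eq_ext_of_nb eq_of_nb_head last_ext crossing red_suffix)

variable {D : Type u} [PartialOrder D] {Q : Type v} [PartialOrder Q] [OrderTop Q]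

section

variable (r : ℕ) (lam : (ℕ → Q) → D)

/-- monotone sequences which are `⊤` from the index `r` on -/
def V (δ : ℕ → Q) : Prop := Monotone δ ∧ ∀ j, r ≤ j → δ j = ⊤

/-- the shift -/
def sh (δ : ℕ → Q) : ℕ → Q := fun j => δ (j + 1)

/-- the lift of `lam` to reduced walks -/
noncomputable def zz : ℕ → (ℕ → Q) → List D
  | 0, δ => [lam δ]
  | n + 1, δ => ext (zz n (sh δ)) (lam δ)

variable {r lam}

lemma V.sh {δ : ℕ → Q} (h : V r δ) : V r (sh δ) :=
  ⟨fun a b hab => h.1 (by omega), fun j hj => h.2 _ (by omega)⟩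

lemma sh_top : sh (fun _ => (⊤ : Q)) = fun _ => ⊤ := rfl

lemma zz_stable (n : ℕ) : ∀ δ : ℕ → Q, (∀ j, n ≤ j → δ j = ⊤) →
    zz lam (n + 1) δ = zz lam n δ := by
  induction n with
  | zero =>
    intro δ h
    have h1 : sh δ = δ := by
      funext j
      rw [sh, h _ (Nat.zero_le _), h _ (Nat.zero_le _)]
    simp only [zz]
    rw [h1, ext_self]
  | succ n ih =>
    intro δ h
    have := ih (sh δ) (fun j hj => h _ (by omega))
    rw [zz, this]
    rfl

lemma zz_eq {δ : ℕ → Q} (h : V r δ) : zz lam r δ = ext (zz lam r (sh δ)) (lam δ) := by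
  rw [← zz_stable r δ h.2]
  rfl

variable (h1 : ∀ δ δ' : ℕ → Q, V r δ → V r δ' → (∀ j, δ j ≤ δ' j) →
    (∀ j, δ' j ≤ δ (j + 1)) → lam δ ≤ lam δ' ∨ lam δ' ≤ lam δ)

include h1

lemma zz_red (m : ℕ) : ∀ δ : ℕ → Q, V r δ → (∀ j, m ≤ j → δ j = ⊤) →
    Red (zz lam r δ) ∧ (zz lam r δ).head? = some (lam δ) ∧ (zz lam r δ).length ≤ m + 1 ∧
      [lam (fun _ => ⊤)] <:+ zz lam r δ := by
  induction m with
  | zero =>
    intro δ hV h
    have h2 : δ = fun _ => ⊤ := funext fun j => h j (Nat.zero_le _)
    subst h2
    have h3 : ∀ n, zz lam n (fun _ => ⊤) = [lam (fun _ => ⊤)] := by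
      intro n
      induction n with
      | zero => rfl
      | succ n ih => rw [zz, sh_top, ih, ext_self]
    rw [h3]
    exact ⟨Red.one _, by simp, by simp, List.suffix_rfl⟩
  | succ m ih =>
    intro δ hV h
    obtain ⟨k1, k2, k3, k4⟩ := ih (sh δ) hV.sh (fun j hj => h _ (by omega))
    rw [zz_eq hV]
    have hc : lam δ = lam (sh δ) ∨ Cp (lam δ) (lam (sh δ)) := by
      rcases h1 δ (sh δ) hV hV.sh (fun j => hV.1 (by omega)) (fun j => le_rfl) with h | h
      · rcases h.eq_or_lt with h | h
        · exact Or.inl h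
        · exact Or.inr (Or.inl h)
      · rcases h.eq_or_lt with h | h
        · exact Or.inl h.symm
        · exact Or.inr (Or.inr h)
    generalize zz lam r (sh δ) = t at k1 k2 k3 k4 ⊢
    match t, k1, k2, k3, k4 with
    | b :: t, k1, k2, k3, k4 =>
      simp only [List.head?_cons, Option.some.injEq] at k2
      refine ⟨red_ext k1 (by rw [k2]; exact hc), head_ext _ _, (length_ext _ _).trans (by omega),
        last_ext _ _ _ _ k4⟩

lemma zz_nb (hD : ∀ a b c : D, a < b → b < c → False) (m : ℕ) :
    ∀ δ δ' : ℕ → Q, V r δ → V r δ' → (∀ j, m ≤ j → δ j = ⊤) → (∀ j, m ≤ j → δ' j = ⊤) →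
      (∀ j, δ j ≤ δ' j) → (∀ j, δ' j ≤ δ (j + 1)) → Nb (zz lam r δ) (zz lam r δ') := by
  have hred : ∀ δ : ℕ → Q, V r δ →
      Red (zz lam r δ) ∧ (zz lam r δ).head? = some (lam δ) := fun δ hV =>
    ⟨(zz_red h1 r δ hV hV.2).1, (zz_red h1 r δ hV hV.2).2.1⟩
  -- the step
  have step : ∀ δ δ' : ℕ → Q, V r δ → V r δ' → (∀ j, δ j ≤ δ' j) →
      (∀ j, δ' j ≤ δ (j + 1)) → Nb (zz lam r δ') (zz lam r (sh δ)) →
        Nb (zz lam r δ) (zz lam r δ') := by
    intro δ δ' hV hV' h2 h3 h4
    obtain ⟨r1, e1⟩ := hred δ hV
    obtain ⟨r2, e2⟩ := hred δ' hV'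
    obtain ⟨r3, e3⟩ := hred (sh δ) hV.sh
    have c1 := h1 δ δ' hV hV' h2 h3
    have c2 := h1 δ' (sh δ) hV' hV.sh h3 (fun j => h2 (j + 1))
    have c3 := h1 δ (sh δ) hV hV.sh (fun j => hV.1 (by omega)) (fun j => le_rfl)
    have hz := zz_eq (lam := lam) hV
    have hnb : Nb (zz lam r (sh δ)) (zz lam r δ) := by
      rw [hz]
      generalize zz lam r (sh δ) = t at r3
      match t, r3 with
      | b :: t, _ => exact nb_ext b t _
    by_cases hac : lam δ = lam (sh δ)
    · have : zz lam r δ = zz lam r (sh δ) := by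
        refine eq_of_nb_head r3 r1 hnb e3 ?_
        rw [e1, hac]
      rw [this]
      exact h4.symm
    · by_cases hbc : lam δ' = lam (sh δ)
      · have : zz lam r δ' = zz lam r (sh δ) := by
          refine eq_of_nb_head r3 r2 h4.symm e3 ?_
          rw [e2, hbc]
        rw [this]
        exact hnb.symm
      · have hab : lam δ = lam δ' := by
          by_contra hab
          have k1 : Cp (lam δ) (lam δ') := by
            rcases c1 with c | c
            · exact Or.inl (lt_of_le_of_ne c hab)
            · exact Or.inr (lt_of_le_of_ne c (Ne.symm hab))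
          have k2 : Cp (lam δ') (lam (sh δ)) := by
            rcases c2 with c | c
            · exact Or.inl (lt_of_le_of_ne c hbc)
            · exact Or.inr (lt_of_le_of_ne c (Ne.symm hbc))
          have k3 : Cp (lam δ) (lam (sh δ)) := by
            rcases c3 with c | c
            · exact Or.inl (lt_of_le_of_ne c hac)
            · exact Or.inr (lt_of_le_of_ne c (Ne.symm hac))
          rcases k1 with k1 | k1 <;> rcases k2 with k2 | k2 <;> rcases k3 with k3 | k3
          · exact hD _ _ _ k1 k2
          · exact hD _ _ _ k1 k2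
          · exact hD _ _ _ k3 k2
          · exact hD _ _ _ k3 k1
          · exact hD _ _ _ k1 k3
          · exact hD _ _ _ k2 k3
          · exact hD _ _ _ k2 k1
          · exact hD _ _ _ k2 k1
        left
        rw [eq_ext_of_nb r3 r2 h4.symm e2, hz, hab]
  induction m with
  | zero =>
    intro δ δ' _ _ h2 h3 _ _
    left
    have h4 : δ = fun _ => ⊤ := funext fun j => h2 j (Nat.zero_le _)
    have h5 : δ' = fun _ => ⊤ := funext fun j => h3 j (Nat.zero_le _)
    rw [h4, h5]
  | succ m ih =>
    intro δ δ' hV hV' h2 h3 h4 h5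
    have k1 := ih (sh δ) (sh δ') hV.sh hV'.sh (fun j hj => h2 _ (by omega))
      (fun j hj => h3 _ (by omega)) (fun j => h4 (j + 1)) (fun j => h5 (j + 1))
    have k2 := step δ' (sh δ) hV' hV.sh h5 (fun j => h4 (j + 1)) k1
    exact step δ δ' hV hV' h4 h5 k2

/-- **There is no labelling** for which the label of a tuple all of whose letters are at most the
letter of `a` is not `a`, if any two comparable labels `a`, `b` have a letter below their
letters. -/
theorem no_labelling (hD : ∀ a b c : D, a < b → b < c → False) (c : D → Q) (p : D → D → Q)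
    (hp1 : ∀ a b, Cp a b → p a b ≤ c a) (hp2 : ∀ a b, Cp a b → p a b ≤ c b)
    (h2 : ∀ δ : ℕ → Q, V r δ → ∀ d : D, (∀ j, j < r → δ j ≤ c d) → lam δ ≠ d) : False := by
  classical
  -- constant sequences
  let cst : Q → ℕ → Q := fun e j => if j < r then e else ⊤
  have hcV : ∀ e, V r (cst e) := by
    intro e
    refine ⟨fun a b hab => ?_, fun j hj => ?_⟩
    · simp only [cst]
      by_cases hb : b < r
      · rw [if_pos hb, if_pos (by omega)]
      · rw [if_neg hb]; exact le_top
    · simp only [cst]
      rw [if_neg (by omega)]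
  have hcle : ∀ e, ∀ j, j < r → cst e j ≤ e := by
    intro e j hj
    simp only [cst]
    rw [if_pos hj]
  have hz := fun δ hV => zz_red h1 r δ hV hV.2
  have hnb : ∀ δ δ' : ℕ → Q, V r δ → V r δ' → (∀ j, δ j ≤ δ' j) →
      (∀ j, δ' j ≤ δ (j + 1)) → Nb (zz lam r δ) (zz lam r δ') := fun δ δ' hV hV' h3 h4 =>
    zz_nb h1 hD r δ δ' hV hV' hV.2 hV'.2 h3 h4
  -- from a letter to a smaller one, one entry after the other
  let dl : Q → Q → ℕ → ℕ → Q := fun x y k j =>
    if j < k ∧ j < r then x else if j < r then y else ⊤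
  have hdV : ∀ x y, x ≤ y → ∀ k, V r (dl x y k) := by
    intro x y hxy k
    refine ⟨fun i j hij => ?_, fun j hj => ?_⟩
    · simp only [dl]
      split_ifs <;> first | exact le_rfl | exact le_top | exact hxy | (exfalso; omega)
    · simp only [dl]
      rw [if_neg (by omega), if_neg (by omega)]
  have hdle : ∀ x y, x ≤ y → ∀ k j, j < r → dl x y k j ≤ y := by
    intro x y hxy k j hj
    simp only [dl]
    split_ifs
    · exact hxy
    · exact le_rfl
  have hd0 : ∀ x y, dl x y 0 = cst y := by
    intro x y
    funext j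
    simp only [dl, cst]
    rw [if_neg (by omega)]
  have hdr : ∀ x y, dl x y r = cst x := by
    intro x y
    funext j
    simp only [dl, cst]
    by_cases hj : j < r
    · rw [if_pos ⟨hj, hj⟩, if_pos hj]
    · rw [if_neg (fun h => hj h.2), if_neg hj, if_neg hj]
  have hdn : ∀ x y, x ≤ y → ∀ k, Nb (zz lam r (dl x y (k + 1))) (zz lam r (dl x y k)) := by
    intro x y hxy k
    refine hnb _ _ (hdV x y hxy _) (hdV x y hxy _) (fun j => ?_) (fun j => ?_)
    · simp only [dl]
      split_ifs <;> first | exact le_rfl | exact le_top | exact hxy | (exfalso; omega)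
    · simp only [dl]
      split_ifs <;> first | exact le_rfl | exact le_top | exact hxy | (exfalso; omega)
  -- the step
  have key : ∀ n : ℕ, ∃ (e : D) (t : List D), t.length = n ∧ (e :: t) <:+ zz lam r (cst (c e)) ∧
      e :: t ≠ zz lam r (cst (c e)) := by
    intro n
    induction n with
    | zero =>
      refine ⟨lam (fun _ => ⊤), [], rfl, (hz _ (hcV _)).2.2.2, fun h => ?_⟩
      have h3 := (hz _ (hcV (c (lam (fun _ => ⊤))))).2.1
      rw [← h] at h3
      simp only [List.head?_cons, Option.some.injEq] at h3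
      exact h2 _ (hcV _) _ (hcle _) h3.symm
    | succ n ih =>
      obtain ⟨e, t, ht, h3, h4⟩ := ih
      obtain ⟨l, hl⟩ := h3
      have hl0 : l ≠ [] := by
        rintro rfl
        exact h4 (by simpa using hl)
      obtain ⟨l', b, rfl⟩ : ∃ l' b, l = l' ++ [b] :=
        ⟨l.dropLast, l.getLast hl0, (List.dropLast_append_getLast hl0).symm⟩
      have hl' : l' ++ (b :: e :: t) = zz lam r (cst (c e)) := by
        rw [← hl]; simp
      have hsuf : (b :: e :: t) <:+ zz lam r (cst (c e)) := ⟨l', hl'⟩
      have hred : Red (b :: e :: t) := by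
        refine red_suffix (l := l') ?_ (by simp)
        rw [hl']
        exact (hz _ (hcV _)).1
      have hcp := red_cp hred
      have hne : (b :: e :: t) ≠ zz lam r (cst (c b)) := by
        intro h
        have h5 := (hz _ (hcV (c b))).2.1
        rw [← h] at h5
        simp only [List.head?_cons, Option.some.injEq] at h5
        exact h2 _ (hcV _) _ (hcle _) h5.symm
      refine ⟨b, e :: t, by simp [ht], ?_, hne⟩
      -- down from the letter of `e`: the labels are not `e`
      have hall1 : ∀ k, (b :: e :: t) <:+ zz lam r (dl (p b e) (c e) k) := by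
        intro k
        induction k with
        | zero =>
          rw [hd0]
          exact hsuf
        | succ k ihk =>
          by_contra hcon
          obtain ⟨h5, a, h6⟩ := crossing (hdn _ _ (hp2 b e hcp) k).symm ihk hcon
          rw [h5] at h6
          simp only [List.cons.injEq] at h6
          have h7 := (hz _ (hdV _ _ (hp2 b e hcp) (k + 1))).2.1
          rw [← h6.2] at h7
          simp only [List.head?_cons, Option.some.injEq] at h7
          exact h2 _ (hdV _ _ (hp2 b e hcp) (k + 1)) e (hdle _ _ (hp2 b e hcp) _) h7.symm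
      have h8 : (b :: e :: t) <:+ zz lam r (dl (p b e) (c b) r) := by
        rw [hdr]
        have h9 := hall1 r
        rw [hdr] at h9
        exact h9
      -- up to the letter of `b`: the labels are not `b`
      have hall2 : ∀ k, k ≤ r → (b :: e :: t) <:+ zz lam r (dl (p b e) (c b) (r - k)) := by
        intro k
        induction k with
        | zero =>
          intro _
          exact h8
        | succ k ihk =>
          intro hk
          by_contra hcon
          have h10 := hdn _ _ (hp1 b e hcp) (r - (k + 1))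
          rw [show r - (k + 1) + 1 = r - k from by omega] at h10
          obtain ⟨h5, a, h6⟩ := crossing h10 (ihk (by omega)) hcon
          have h7 := (hz _ (hdV _ _ (hp1 b e hcp) (r - k))).2.1
          rw [h5] at h7
          simp only [List.head?_cons, Option.some.injEq] at h7
          exact h2 _ (hdV _ _ (hp1 b e hcp) (r - k)) b (hdle _ _ (hp1 b e hcp) _) h7.symm
      have h11 := hall2 r le_rfl
      rw [Nat.sub_self, hd0] at h11
      exact h11
  obtain ⟨e, t, ht, h3, h4⟩ := key r
  have h5 := (hz _ (hcV (c e))).2.2.1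
  have h6 := h3.length_le
  simp only [List.length_cons] at h6
  exact h4 (h3.eq_of_length (by simp only [List.length_cons]; omega))

end

end Pool.Agent.Helper73.FX.G3
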