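import Pool.Agent.Helper80.FX2.Label

/-! Project FX, colouring version: the label function of a monotone map `f` without fixed point, for
an arbitrary set `A` of points `x` such that `s ∨ f x` exists. Adapted from helper80's
`FX2/Label.lean`. -/

set_option autoImplicit false

universe u

namespace Pool.Agent.Helper73.FX

open Pool.Agent.Helper80.FX2 (Lt LZ LZ_top lo lo_of_chain lo_empty lo_le lo_anti sweeps)
open Pool.Agent

theorem exists_label3 (P : Type u) [PartialOrder P]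
    (hfin : ∃ n : ℕ, ∀ c : Finset P, IsChain (· ≤ ·) (c : Set P) → c.card ≤ n) (s : P)
    (f : P → P) (hf : Monotone f) (hno : ¬ ∃ x : P, f x = x)
    (A : Set P) (hA : ∀ x ∈ A, ∃ z : P, IsLUB ({s, f x} : Set P) z)
    (be : P → P) (hbes : ∀ w, w ∉ A → be w ≤ s) (hbef : ∀ w, w ∉ A → be w ≤ f w)
    (hbem : ∀ v w, v ∉ A → w ∉ A → v ≤ w → be v ≤ be w)
    (hj : ∀ x w : P, x < w → x ∈ A → w ∉ A → be w < s → ∃ z : P, IsLUB ({be w, f x} : Set P) z)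
    (E : Set P) (hEdef : E = {e | ∃ w, w ∉ A ∧ be w < s ∧ be w = e}) :
    ∃ (r : ℕ) (lam : (Fin r → Lt P) → P),
      (∀ δ, Helper31.FX.Rel δ δ → (∀ j, δ j ∈ LZ E) → lam δ ∈ E) ∧
      (∀ δ δ', Helper31.FX.Rel δ δ' → Helper31.FX.Rel δ δ → Helper31.FX.Rel δ' δ' →
        (∀ j, δ j ∈ LZ E) → (∀ j, δ' j ∈ LZ E) → lam δ ≤ lam δ' ∨ lam δ' ≤ lam δ) ∧
      ∀ δ, Helper31.FX.Rel δ δ → (∀ j, δ j ∈ LZ E) →
        ∀ x, (∀ j, x ∈ (OrderDual.ofDual (δ j) : Finset P)) → lam δ ≠ x := by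
  classical
  have hE : ∀ d ∈ E, d < s := by
    intro d hd
    rw [hEdef] at hd
    obtain ⟨w, _, h2, h3⟩ := hd
    exact h3 ▸ h2
  obtain ⟨n, hn⟩ := hfin
  have nle : ∀ x, ¬ x ≤ f x := fun x hx => hno (Helper31.FX.fix_of_le n hn f hf x hx)
  have nge : ∀ x, ¬ f x ≤ x := fun x hx => hno (Helper31.FX.fix_of_ge n hn f hf x hx)
  -- values above `x`
  let Val : P → P → Prop := fun x e => ∃ w, w ∉ A ∧ x < w ∧ be w < s ∧ be w = e
  have hVal : ∀ x x', x ≤ x' → ∀ e, Val x' e → Val x e := by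
    rintro x x' h e ⟨w, h1, h2, h3, h4⟩
    exact ⟨w, h1, lt_of_le_of_lt h h2, h3, h4⟩
  -- the element added at `x` for the letter `ρ`
  let ad : Lt P → P → P := fun ρ x => lo s ((OrderDual.ofDual ρ : Finset P).filter (Val x))
  let K : Lt P → P → P := fun ρ x =>
    if h : ∃ z : P, IsLUB ({ad ρ x, f x} : Set P) z then h.choose else s
  have hle : ∀ ρ ∈ LZ E, ∀ x ∈ (OrderDual.ofDual ρ : Finset P), x ≤ s := fun ρ hρ x hx =>
    (hE x (hρ.1 (Finset.mem_coe.2 hx))).le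
  have hch : ∀ ρ ∈ LZ E, ∀ x,
      IsChain (· ≤ ·) (((OrderDual.ofDual ρ : Finset P).filter (Val x) : Finset P) : Set P) :=
    fun ρ hρ x => hρ.2.mono (Finset.coe_subset.2 (Finset.filter_subset _ _))
  have hlef : ∀ ρ ∈ LZ E, ∀ x, ∀ y ∈ (OrderDual.ofDual ρ : Finset P).filter (Val x), y ≤ s :=
    fun ρ hρ x y hy => hle ρ hρ y (Finset.mem_of_mem_filter y hy)
  have hads : ∀ ρ ∈ LZ E, ∀ x, ad ρ x ≤ s := fun ρ hρ x => lo_le s _ (hch ρ hρ x) (hlef ρ hρ x)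
  have hlub : ∀ ρ ∈ LZ E, ∀ x ∈ A, IsLUB ({ad ρ x, f x} : Set P) (K ρ x) := by
    intro ρ hρ x hx
    have h : ∃ z : P, IsLUB ({ad ρ x, f x} : Set P) z := by
      rcases ((OrderDual.ofDual ρ : Finset P).filter (Val x)).eq_empty_or_nonempty with he | he
      · have e : ad ρ x = s := by
          simp only [ad, he]
          exact lo_empty s
        rw [e]
        exact hA x hx
      · have h1 := (lo_of_chain s _ (hch ρ hρ x) he).1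
        rw [Finset.mem_filter] at h1
        obtain ⟨-, w, hw, hxw, hws, hpw⟩ := h1
        have h2 := hj x w hxw hx hw hws
        rw [hpw] at h2
        exact h2
    simp only [K, dif_pos h]
    exact h.choose_spec
  have hKa : ∀ ρ ∈ LZ E, ∀ x ∈ A, ad ρ x ≤ K ρ x := fun ρ hρ x hx => (hlub ρ hρ x hx).1 (by simp)
  have hKf : ∀ ρ ∈ LZ E, ∀ x ∈ A, f x ≤ K ρ x := fun ρ hρ x hx => (hlub ρ hρ x hx).1 (by simp)
  have hKl : ∀ ρ ∈ LZ E, ∀ x ∈ A, ∀ y, ad ρ x ≤ y → f x ≤ y → K ρ x ≤ y := by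
    intro ρ hρ x hx y h1 h2
    refine (hlub ρ hρ x hx).2 ?_
    rintro z (rfl | rfl)
    · exact h1
    · exact h2
  have hKx : ∀ ρ ∈ LZ E, ∀ x ∈ A, ¬ K ρ x ≤ x := fun ρ hρ x hx h =>
    nge x ((hKf ρ hρ x hx).trans h)
  have hst : ∀ ρ ∈ LZ E, ∀ ρ' ∈ LZ E, ρ ≤ ρ' →
      lo s (OrderDual.ofDual ρ) ≤ lo s (OrderDual.ofDual ρ') := fun ρ hρ ρ' _ h =>
    lo_anti s _ _ hρ.2 (hle ρ hρ) h
  have hd : ∀ ρ ∈ LZ E, ∀ x ∈ A, lo s (OrderDual.ofDual ρ) ≤ K ρ x := fun ρ hρ x hx =>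
    (lo_anti s _ _ hρ.2 (hle ρ hρ) (Finset.filter_subset _ _)).trans (hKa ρ hρ x hx)
  have hK : ∀ ρ ∈ LZ E, ∀ ρ' ∈ LZ E, ∀ x ∈ A, ∀ x' ∈ A, ρ ≤ ρ' → x ≤ x' →
      K ρ x ≤ K ρ' x' := by
    intro ρ hρ ρ' hρ' x hx x' hx' h hxx
    refine hKl ρ hρ x hx _ ((lo_anti s _ _ (hch ρ hρ x) (hlef ρ hρ x) ?_).trans
      (hKa ρ' hρ' x' hx')) ((hf hxx).trans (hKf ρ' hρ' x' hx'))
    intro y hy
    rw [Finset.mem_filter] at hy ⊢
    exact ⟨h hy.1, hVal x x' hxx y hy.2⟩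
  have htop : ∀ ρ ∈ LZ E, ρ ≤ (OrderDual.toDual (∅ : Finset P) : Lt P) := by
    intro ρ _
    show (∅ : Finset P) ⊆ OrderDual.ofDual ρ
    exact Finset.empty_subset _
  obtain ⟨v, hv1, hv2⟩ := sweeps n hn (OrderDual.toDual (∅ : Finset P) : Lt P) A (LZ E) (LZ_top E)
    htop (fun ρ => lo s (OrderDual.ofDual ρ)) K hst hK hd hKx
  -- the value at the exit is below `s`
  have hlt : ∀ δ, Helper31.FX.Rel δ δ → (∀ j, δ j ∈ LZ E) → be (v δ) < s := by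
    intro δ hδ hδZ
    obtain ⟨hvA, j, hj'⟩ := hv1 δ hδ hδZ
    refine lt_of_le_of_ne (hbes _ hvA) ?_
    intro e
    have hsf : s ≤ f (v δ) := e ▸ hbef _ hvA
    apply nle (v δ)
    rcases hj' with e1 | ⟨z, hz, hzv, e1⟩
    · have h1 : v δ ≤ s := by
        rw [e1]
        exact lo_le s _ (hδZ j).2 (hle _ (hδZ j))
      exact h1.trans hsf
    · have h1 : K (δ j) z ≤ f (v δ) :=
        hKl (δ j) (hδZ j) z hz _ ((hads _ (hδZ j) z).trans hsf) (hf hzv)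
      rw [← e1] at h1
      exact h1
  let lam : (Fin n → Lt P) → P := fun δ => be (v δ)
  have hl1 : ∀ δ, Helper31.FX.Rel δ δ → (∀ j, δ j ∈ LZ E) → lam δ ∈ E := by
    intro δ hδ hδZ
    rw [hEdef]
    exact ⟨v δ, (hv1 δ hδ hδZ).1, hlt δ hδ hδZ, rfl⟩
  have hl2 : ∀ δ δ', Helper31.FX.Rel δ δ' → Helper31.FX.Rel δ δ → Helper31.FX.Rel δ' δ' →
      (∀ j, δ j ∈ LZ E) → (∀ j, δ' j ∈ LZ E) → lam δ ≤ lam δ' ∨ lam δ' ≤ lam δ := by
    intro δ δ' hr h1 h2 hz1 hz2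
    rcases hv2 δ δ' hr h1 h2 hz1 hz2 with h | h
    · exact Or.inl (hbem _ _ (hv1 δ h1 hz1).1 (hv1 δ' h2 hz2).1 h)
    · exact Or.inr (hbem _ _ (hv1 δ' h2 hz2).1 (hv1 δ h1 hz1).1 h)
  have hl3 : ∀ δ, Helper31.FX.Rel δ δ → (∀ j, δ j ∈ LZ E) →
      ∀ x, (∀ j, x ∈ (OrderDual.ofDual (δ j) : Finset P)) → lam δ ≠ x := by
    intro δ hδ hδZ x hx hcon
    obtain ⟨hvA, j, hj'⟩ := hv1 δ hδ hδZ
    have hlb : lam δ ≤ f (v δ) := hbef _ hvA
    have hin : lam δ ∈ (OrderDual.ofDual (δ j) : Finset P) := hcon ▸ hx j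
    apply nle (v δ)
    rcases hj' with e1 | ⟨z, hz, hzv, e1⟩
    · have h1 : v δ ≤ lam δ := by
        rw [e1]
        exact (lo_of_chain s _ (hδZ j).2 ⟨_, hin⟩).2 _ hin
      exact h1.trans hlb
    · have hzlt : z < v δ := by
        refine lt_of_le_of_ne hzv ?_
        intro e'
        exact hvA (e' ▸ hz)
      have hmem : lam δ ∈ (OrderDual.ofDual (δ j) : Finset P).filter (Val z) := by
        rw [Finset.mem_filter]
        exact ⟨hin, v δ, hvA, hzlt, hlt δ hδ hδZ, rfl⟩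
      have h1 : ad (δ j) z ≤ lam δ := (lo_of_chain s _ (hch _ (hδZ j) z) ⟨_, hmem⟩).2 _ hmem
      have h2 : K (δ j) z ≤ f (v δ) := hKl (δ j) (hδZ j) z hz _ (h1.trans hlb) (hf hzv)
      rw [← e1] at h2
      exact h2
  exact ⟨n, lam, hl1, hl2, hl3⟩

end Pool.Agent.Helper73.FX
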