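import Pool.Agent.Helper73.FX.Label3
import Pool.Agent.Helper80.FX2.Bounded

/-! Project FX, colouring version: fixed points of one monotone map, only joins with its values are
used. -/

set_option autoImplicit false

universe u

namespace Pool.Agent.Helper73.FX

open Pool.Agent
open Pool.Agent.Helper31.FX (HasBoundedRay)

/-- Let `f` be a monotone self-map of a poset with bounded chains, `A` a set of points `x` such that
`s ∨ f x` exists, and `be w ≤ s, f w` monotone on the complement of `A`, such that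
`be w ∨ f x` exists for `x < w`, `x ∈ A`, `w ∉ A`, `be w < s`. If the values `be w < s` contain no
ray of bounded diameter then `f` has a fixed point. -/
theorem main3 (P : Type u) [PartialOrder P]
    (hfin : ∃ n : ℕ, ∀ c : Finset P, IsChain (· ≤ ·) (c : Set P) → c.card ≤ n) (s : P)
    (f : P → P) (hf : Monotone f)
    (A : Set P) (hA : ∀ x ∈ A, ∃ z : P, IsLUB ({s, f x} : Set P) z)
    (be : P → P) (hbe : ∀ w, w ∉ A → be w ≤ s ∧ be w ≤ f w)
    (hbem : ∀ v w, v ∉ A → w ∉ A → v ≤ w → be v ≤ be w)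
    (hj : ∀ x w : P, x < w → x ∈ A → w ∉ A → be w < s → ∃ z : P, IsLUB ({be w, f x} : Set P) z)
    (hray : ¬ HasBoundedRay {e | ∃ w, w ∉ A ∧ be w < s ∧ be w = e}) : ∃ x : P, f x = x := by
  by_contra hno
  obtain ⟨r, lam, h1, h2, h3⟩ := exists_label3 P hfin s f hf hno A hA be
    (fun w hw => (hbe w hw).1) (fun w hw => (hbe w hw).2) hbem hj _ rfl
  refine Helper80.FX2.no_labelling_bray r s _ ?_ lam h1 h2 h3 hray
  rintro d ⟨w, _, h2, h3⟩
  exact h3 ▸ h2

theorem bray_dual {P : Type u} [PartialOrder P] (E : Set P) (h : ¬ HasBoundedRay E) :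
    ¬ HasBoundedRay (P := Pᵒᵈ) (OrderDual.ofDual ⁻¹' E) := by
  rintro ⟨v, hv, hvE, hvc, c, n, hp⟩
  apply h
  refine ⟨v, hv, hvE, fun k => (hvc k).symm, c, n, ?_⟩
  intro i
  obtain ⟨p, h0, hn, hE, hc⟩ := hp i
  exact ⟨p, h0, hn, hE, fun j hj => (hc j hj).symm⟩

/-- The order dual of `main3`. -/
theorem main3_dual (P : Type u) [PartialOrder P]
    (hfin : ∃ n : ℕ, ∀ c : Finset P, IsChain (· ≤ ·) (c : Set P) → c.card ≤ n) (s : P)
    (f : P → P) (hf : Monotone f)
    (A : Set P) (hA : ∀ x ∈ A, ∃ z : P, IsGLB ({s, f x} : Set P) z)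
    (be : P → P) (hbe : ∀ w, w ∉ A → s ≤ be w ∧ f w ≤ be w)
    (hbem : ∀ v w, v ∉ A → w ∉ A → v ≤ w → be v ≤ be w)
    (hj : ∀ x w : P, w < x → x ∈ A → w ∉ A → s < be w → ∃ z : P, IsGLB ({be w, f x} : Set P) z)
    (hray : ¬ HasBoundedRay {e | ∃ w, w ∉ A ∧ s < be w ∧ be w = e}) : ∃ x : P, f x = x := by
  obtain ⟨n, hn⟩ := hfin
  exact main3 Pᵒᵈ ⟨n, fun c hc => hn c (by
    intro a ha b hb hab
    exact (hc ha hb hab).symm)⟩ (OrderDual.toDual s)
    (fun x => OrderDual.toDual (f (OrderDual.ofDual x))) (fun a b hab => hf hab)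
    (OrderDual.ofDual ⁻¹' A) (fun x hx => hA (OrderDual.ofDual x) hx)
    (fun x => OrderDual.toDual (be (OrderDual.ofDual x)))
    (fun w hw => hbe (OrderDual.ofDual w) hw)
    (fun v w h1 h2 h3 => hbem (OrderDual.ofDual w) (OrderDual.ofDual v) h2 h1 h3)
    (fun x w h1 h2 h3 h4 => hj (OrderDual.ofDual x) (OrderDual.ofDual w) h1 h2 h3 h4)
    (bray_dual _ hray)

/-- A finite set has no bounded ray. -/
theorem not_bray_of_finite {P : Type u} [PartialOrder P] {E : Set P} (h : E.Finite) :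
    ¬ HasBoundedRay E := by
  rintro ⟨v, hv, hvE, -⟩
  exact (Set.infinite_of_injective_forall_mem hv hvE) h

theorem bray_mono {P : Type u} [PartialOrder P] {E F : Set P} (hEF : E ⊆ F)
    (h : ¬ HasBoundedRay F) : ¬ HasBoundedRay E := by
  rintro ⟨v, hv, hvE, hvc, c, n, hp⟩
  refine h ⟨v, hv, fun k => hEF (hvE k), hvc, c, n, fun i => ?_⟩
  obtain ⟨p, h0, hn, hE, hc⟩ := hp i
  exact ⟨p, h0, hn, fun j hj => hEF (hE j hj), hc⟩

/-- FX2 (helper80's `main_tame2`) as a special case. -/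
theorem main3_tame (P : Type u) [PartialOrder P]
    (hfin : ∃ n : ℕ, ∀ c : Finset P, IsChain (· ≤ ·) (c : Set P) → c.card ≤ n) (s : P)
    (hi : ∀ x : P, (∃ z : P, IsLUB ({s, x} : Set P) z) ∨ (∃ z : P, IsGLB ({s, x} : Set P) z))
    (E : Set P)
    (hgr : ∀ m : P, m < s → ∃ e, IsGreatest {d | d ∈ E ∧ d ≤ m} e)
    (hj : ∀ x y m e : P, x < y → (¬ ∃ z : P, IsGLB ({s, x} : Set P) z) →
      IsGLB ({s, y} : Set P) m → m < s → IsGreatest {d | d ∈ E ∧ d ≤ m} e →
      ∃ z : P, IsLUB ({e, x} : Set P) z)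
    (hray : ¬ HasBoundedRay E)
    (f : P → P) (hf : Monotone f) : ∃ x : P, f x = x := by
  classical
  let me : P → P := fun y => if h : ∃ z : P, IsGLB ({s, y} : Set P) z then h.choose else s
  have hme : ∀ y, (∃ z : P, IsGLB ({s, y} : Set P) z) → IsGLB ({s, y} : Set P) (me y) := by
    intro y h
    simp only [me, dif_pos h]
    exact h.choose_spec
  let pi : P → P := fun m => if h : m < s ∧ ∃ e, IsGreatest {d | d ∈ E ∧ d ≤ m} e
    then h.2.choose else s
  have hpi : ∀ m, m < s → IsGreatest {d | d ∈ E ∧ d ≤ m} (pi m) := by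
    intro m hm
    have h : m < s ∧ ∃ e, IsGreatest {d | d ∈ E ∧ d ≤ m} e := ⟨hm, hgr m hm⟩
    simp only [pi, dif_pos h]
    exact h.2.choose_spec
  have hpis : pi s = s := by
    have h : ¬ (s < s ∧ ∃ e, IsGreatest {d | d ∈ E ∧ d ≤ s} e) := fun h => lt_irrefl _ h.1
    simp only [pi, dif_neg h]
  have hW : ∀ w, w ∉ {x | ¬ ∃ z : P, IsGLB ({s, f x} : Set P) z} →
      ∃ z : P, IsGLB ({s, f w} : Set P) z := by
    intro w hw
    simpa using hw
  have hle : ∀ m, m ≤ s → pi m ≤ m := by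
    intro m hm
    rcases hm.lt_or_eq with h | h
    · exact (hpi m h).1.2
    · rw [h, hpis]
  refine main3 P hfin s f hf {x | ¬ ∃ z : P, IsGLB ({s, f x} : Set P) z} ?_
    (fun w => pi (me (f w))) ?_ ?_ ?_ ?_
  · intro x hx
    exact (hi (f x)).resolve_right hx
  · intro w hw
    have h1 := hme _ (hW w hw)
    have h2 := hle _ (h1.1 (by simp))
    exact ⟨h2.trans (h1.1 (by simp)), h2.trans (h1.1 (by simp))⟩
  · intro v w hv hw hvw
    have h1 := hme _ (hW v hv)
    have h2 := hme _ (hW w hw)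
    have h3 : me (f v) ≤ me (f w) := by
      refine h2.2 ?_
      rintro z (rfl | rfl)
      · exact h1.1 (by simp)
      · exact (h1.1 (by simp)).trans (hf hvw)
    rcases (h2.1 (by simp) : me (f w) ≤ s).lt_or_eq with h | h
    · have h4 := hpi _ (lt_of_le_of_lt h3 h)
      exact (hpi _ h).2 ⟨h4.1.1, h4.1.2.trans h3⟩
    · show pi (me (f v)) ≤ pi (me (f w))
      rw [h, hpis]
      exact (hle _ (h1.1 (by simp))).trans (h1.1 (by simp))
  · intro x w hxw hx hw hs
    have h1 := hme _ (hW w hw)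
    have hms : me (f w) < s := by
      refine lt_of_le_of_ne (h1.1 (by simp)) ?_
      intro e
      have : pi (me (f w)) = s := by rw [e, hpis]
      exact absurd hs (by rw [this]; exact lt_irrefl _)
    refine hj (f x) (f w) (me (f w)) _ (lt_of_le_of_ne (hf hxw.le) ?_) hx h1 hms (hpi _ hms)
    intro e2
    apply hx
    rw [e2]
    exact hW w hw
  · refine bray_mono ?_ hray
    rintro e ⟨w, hw, hs, rfl⟩
    have h1 := hme _ (hW w hw)
    have hms : me (f w) < s := by
      refine lt_of_le_of_ne (h1.1 (by simp)) ?_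
      intro e
      have : pi (me (f w)) = s := by rw [e, hpis]
      exact absurd hs (by
        show ¬ pi (me (f w)) < s
        rw [this]
        exact lt_irrefl _)
    exact (hpi _ hms).1.1

end Pool.Agent.Helper73.FX
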