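import Pool.Agent.Helper73.FX.Main3
import Pool.Agent.Helper73.FX.Graph3

/-! Project FX, colouring version: the case of values without chain of three elements, and the final
form of the theorem. -/

set_option autoImplicit false

universe u

namespace Pool.Agent.Helper73.FX

open Pool.Agent
open Pool.Agent.Helper31.FX (HasBoundedRay)
open Pool.Agent.Helper80.FX2 (Lt LZ LZ_top)

/-- admissible letters as a type -/
abbrev QQ {P : Type*} [PartialOrder P] (E : Set P) := {ρ : Lt P // ρ ∈ LZ E}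

instance instTopQQ {P : Type*} [PartialOrder P] (E : Set P) : OrderTop (QQ E) where
  top := ⟨OrderDual.toDual (∅ : Finset P), LZ_top E⟩
  le_top := fun ρ => by
    show (∅ : Finset P) ⊆ OrderDual.ofDual ρ.1
    exact Finset.empty_subset _

theorem no_labelling_graph3 {P : Type*} [PartialOrder P] (r : ℕ) (E : Set P)
    (lam : (Fin r → Lt P) → P)
    (h1 : ∀ δ, Helper31.FX.Rel δ δ → (∀ j, δ j ∈ LZ E) → lam δ ∈ E)
    (h2 : ∀ δ δ', Helper31.FX.Rel δ δ' → Helper31.FX.Rel δ δ → Helper31.FX.Rel δ' δ' →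
      (∀ j, δ j ∈ LZ E) → (∀ j, δ' j ∈ LZ E) → lam δ ≤ lam δ' ∨ lam δ' ≤ lam δ)
    (h3 : ∀ δ, Helper31.FX.Rel δ δ → (∀ j, δ j ∈ LZ E) →
      ∀ x, (∀ j, x ∈ (OrderDual.ofDual (δ j) : Finset P)) → lam δ ≠ x)
    (hch : ∀ a ∈ E, ∀ b ∈ E, ∀ c ∈ E, a < b → ¬ b < c) : False := by
  classical
  have htop : lam (fun _ => OrderDual.toDual (∅ : Finset P)) ∈ E :=
    h1 _ ⟨fun _ => le_rfl, fun _ _ _ => le_rfl⟩ (fun _ => LZ_top E)
  -- the tuple of a sequence
  let tp : (ℕ → QQ E) → Fin r → Lt P := fun δ j => (δ j).1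
  have hmem : ∀ δ j, tp δ j ∈ LZ E := fun δ j => (δ j).2
  have hrel : ∀ δ δ' : ℕ → QQ E, G3.V r δ → (∀ j, δ j ≤ δ' j) →
      (∀ j, δ' j ≤ δ (j + 1)) → Helper31.FX.Rel (tp δ) (tp δ') := by
    intro δ δ' hV k1 k2
    refine ⟨fun j => k1 j, fun j k hjk => ?_⟩
    have h : δ' j ≤ δ k := (k2 j).trans (hV.1 (Nat.succ_le_of_lt hjk))
    exact h
  have hself : ∀ δ : ℕ → QQ E, G3.V r δ → Helper31.FX.Rel (tp δ) (tp δ) := fun δ hV =>
    hrel δ δ hV (fun _ => le_rfl) (fun j => hV.1 (Nat.le_succ j))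
  let lab : (ℕ → QQ E) → E := fun δ =>
    if h : lam (tp δ) ∈ E then ⟨lam (tp δ), h⟩ else ⟨_, htop⟩
  have hlab : ∀ δ : ℕ → QQ E, G3.V r δ → (lab δ : P) = lam (tp δ) := by
    intro δ hV
    have h := h1 (tp δ) (hself δ hV) (hmem δ)
    simp only [lab, dif_pos h]
  -- the letters
  have hc : ∀ a : E, (OrderDual.toDual ({a.1} : Finset P) : Lt P) ∈ LZ E := by
    intro a
    refine ⟨?_, ?_⟩
    · intro x hx
      have h : x = a.1 := by simpa using hx
      rw [h]
      exact a.2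
    · show IsChain (· ≤ ·) ((({a.1} : Finset P) : Finset P) : Set P)
      rw [Finset.coe_singleton]
      exact IsChain.singleton
  have hpp : ∀ a b : E, Helper44.GB.Cp a b →
      (OrderDual.toDual ({a.1, b.1} : Finset P) : Lt P) ∈ LZ E := by
    intro a b hab
    refine ⟨?_, ?_⟩
    · intro x hx
      have h : x = a.1 ∨ x = b.1 := by simpa using hx
      rcases h with h | h
      · rw [h]
        exact a.2
      · rw [h]
        exact b.2
    · intro x hx y hy hxy
      have hx' : x = a.1 ∨ x = b.1 := by simpa using hx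
      have hy' : y = a.1 ∨ y = b.1 := by simpa using hy
      have hab' : a.1 ≤ b.1 ∨ b.1 ≤ a.1 := by
        rcases hab with h | h
        · exact Or.inl (le_of_lt h)
        · exact Or.inr (le_of_lt h)
      rcases hx' with rfl | rfl <;> rcases hy' with rfl | rfl
      · exact absurd rfl hxy
      · exact hab'
      · exact hab'.symm
      · exact absurd rfl hxy
  let c : E → QQ E := fun a => ⟨_, hc a⟩
  let p : E → E → QQ E := fun a b => if h : Helper44.GB.Cp a b then ⟨_, hpp a b h⟩ else ⊤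
  refine G3.no_labelling (D := E) (r := r) (lam := lab) ?_ ?_ c p ?_ ?_ ?_
  · intro δ δ' hV hV' k1 k2
    have h := h2 (tp δ) (tp δ') (hrel δ δ' hV k1 k2) (hself δ hV) (hself δ' hV') (hmem δ) (hmem δ')
    rw [← hlab δ hV, ← hlab δ' hV'] at h
    exact h
  · intro a b c hab hbc
    exact hch a.1 a.2 b.1 b.2 c.1 c.2 hab hbc
  · intro a b hab
    simp only [p, dif_pos hab]
    show ({a.1} : Finset P) ⊆ {a.1, b.1}
    simp
  · intro a b hab
    simp only [p, dif_pos hab]
    show ({b.1} : Finset P) ⊆ {a.1, b.1}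
    simp
  · intro δ hV d hd hle
    refine h3 (tp δ) (hself δ hV) (hmem δ) d.1 (fun j => ?_) ?_
    · have h : ({d.1} : Finset P) ⊆ OrderDual.ofDual (δ j).1 := hd j j.2
      exact h (by simp)
    · rw [← hlab δ hV, hle]

/-- `E` contains no ray of bounded diameter, or `E` contains no chain of three elements. -/
def Tame {P : Type u} [PartialOrder P] (E : Set P) : Prop :=
  ¬ HasBoundedRay E ∨ (∀ a ∈ E, ∀ b ∈ E, ∀ c ∈ E, a < b → ¬ b < c)

theorem tame_mono {P : Type u} [PartialOrder P] {E F : Set P} (hEF : E ⊆ F) (h : Tame F) :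
    Tame E := by
  rcases h with h | h
  · exact Or.inl (bray_mono hEF h)
  · exact Or.inr fun a ha b hb c hc => h a (hEF ha) b (hEF hb) c (hEF hc)

theorem tame_dual {P : Type u} [PartialOrder P] (E : Set P) (h : Tame E) :
    Tame (P := Pᵒᵈ) (OrderDual.ofDual ⁻¹' E) := by
  rcases h with h | h
  · exact Or.inl (bray_dual E h)
  · refine Or.inr ?_
    intro a ha b hb c hc hab hbc
    exact h c hc b hb a ha hbc hab

/-- Let `f` be a monotone self-map of a poset with bounded chains, `A` a set of points `x` such that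
`s ∨ f x` exists, and `be w ≤ s, f w` monotone on the complement of `A`, such that
`be w ∨ f x` exists for `x < w`, `x ∈ A`, `w ∉ A`, `be w < s`. If the values `be w < s` contain no
ray of bounded diameter, or no chain of three elements, then `f` has a fixed point. -/
theorem main_tame3 (P : Type u) [PartialOrder P]
    (hfin : ∃ n : ℕ, ∀ c : Finset P, IsChain (· ≤ ·) (c : Set P) → c.card ≤ n) (s : P)
    (f : P → P) (hf : Monotone f)
    (A : Set P) (hA : ∀ x ∈ A, ∃ z : P, IsLUB ({s, f x} : Set P) z)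
    (be : P → P) (hbe : ∀ w, w ∉ A → be w ≤ s ∧ be w ≤ f w)
    (hbem : ∀ v w, v ∉ A → w ∉ A → v ≤ w → be v ≤ be w)
    (hj : ∀ x w : P, x < w → x ∈ A → w ∉ A → be w < s → ∃ z : P, IsLUB ({be w, f x} : Set P) z)
    (ht : Tame {e | ∃ w, w ∉ A ∧ be w < s ∧ be w = e}) : ∃ x : P, f x = x := by
  rcases ht with ht | ht
  · exact main3 P hfin s f hf A hA be hbe hbem hj ht
  · by_contra hno
    obtain ⟨r, lam, h1, h2, h3⟩ := exists_label3 P hfin s f hf hno A hA be
      (fun w hw => (hbe w hw).1) (fun w hw => (hbe w hw).2) hbem hj _ rfl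
    exact no_labelling_graph3 r _ lam h1 h2 h3 ht

/-- The order dual of `main_tame3`. -/
theorem main_tame3_dual (P : Type u) [PartialOrder P]
    (hfin : ∃ n : ℕ, ∀ c : Finset P, IsChain (· ≤ ·) (c : Set P) → c.card ≤ n) (s : P)
    (f : P → P) (hf : Monotone f)
    (A : Set P) (hA : ∀ x ∈ A, ∃ z : P, IsGLB ({s, f x} : Set P) z)
    (be : P → P) (hbe : ∀ w, w ∉ A → s ≤ be w ∧ f w ≤ be w)
    (hbem : ∀ v w, v ∉ A → w ∉ A → v ≤ w → be v ≤ be w)
    (hj : ∀ x w : P, w < x → x ∈ A → w ∉ A → s < be w → ∃ z : P, IsGLB ({be w, f x} : Set P) z)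
    (ht : Tame {e | ∃ w, w ∉ A ∧ s < be w ∧ be w = e}) : ∃ x : P, f x = x := by
  obtain ⟨n, hn⟩ := hfin
  exact main_tame3 Pᵒᵈ ⟨n, fun c hc => hn c (by
    intro a ha b hb hab
    exact (hc ha hb hab).symm)⟩ (OrderDual.toDual s)
    (fun x => OrderDual.toDual (f (OrderDual.ofDual x))) (fun a b hab => hf hab)
    (OrderDual.ofDual ⁻¹' A) (fun x hx => hA (OrderDual.ofDual x) hx)
    (fun x => OrderDual.toDual (be (OrderDual.ofDual x)))
    (fun w hw => hbe (OrderDual.ofDual w) hw)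
    (fun v w h1 h2 h3 => hbem (OrderDual.ofDual w) (OrderDual.ofDual v) h2 h1 h3)
    (fun x w h1 h2 h3 h4 => hj (OrderDual.ofDual x) (OrderDual.ofDual w) h1 h2 h3 h4)
    (tame_dual _ ht)

end Pool.Agent.Helper73.FX
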